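import Pool.Agent.Helper76_LAG.Stmt

/-!
helper25, LAG (MP_0a041d_co): BND.
-/

set_option autoImplicit false

namespace Pool.Agent.LAG

open SimpleGraph

namespace Bnd

variable {V : Type} {G : SimpleGraph V}

lemma isP_prefix {z : ℕ → V} {n m : ℕ} (h : IsP G z n) (hm : m ≤ n) : IsP G z m :=
  ⟨fun t ht => h.1 t (by omega), fun s t hs ht => h.2 s t (by omega) (by omega)⟩

lemma isP_shift {z : ℕ → V} {n s : ℕ} (h : IsP G z n) (hs : s ≤ n) :
    IsP G (fun t => z (s + t)) (n - s) :=
  ⟨fun t ht => h.1 (s + t) (by omega), fun a b ha hb hab => by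
    have := h.2 (s + a) (s + b) (by omega) (by omega) hab
    omega⟩

lemma isP_rev {z : ℕ → V} {n : ℕ} (h : IsP G z n) : IsP G (fun t => z (n - t)) n := by
  refine ⟨fun t ht => ?_, fun a b ha hb hab => ?_⟩
  · have := h.1 (n - (t + 1)) (by omega)
    rw [show n - (t + 1) + 1 = n - t by omega] at this
    exact this.symm
  · have := h.2 (n - a) (n - b) (by omega) (by omega) hab
    omega

lemma isP_one {a b : V} (h : G.Adj a b) : IsP G (fun t => if t = 0 then a else b) 1 := by
  refine ⟨fun t ht => ?_, fun s t hs ht hst => ?_⟩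
  · obtain rfl : t = 0 := by omega
    simpa using h
  · rcases Nat.eq_zero_or_pos s with rfl | h1 <;> rcases Nat.eq_zero_or_pos t with rfl | h2
    · rfl
    · simp only [if_true, if_neg (show ¬ t = 0 by omega)] at hst
      exact absurd hst h.ne
    · simp only [if_true, if_neg (show ¬ s = 0 by omega)] at hst
      exact absurd hst h.ne'
    · omega

/-- a good end for the direction `u` -/
def Fin' (G : SimpleGraph V) (C S : Set V) (v u : V) (N : ℕ) : Prop :=
  ∃ (z : ℕ → V) (n : ℕ), 1 ≤ n ∧ n ≤ N ∧ IsP G z n ∧ z 0 = v ∧ z 1 = u ∧ z n ∈ S ∧ z (n - 1) ∈ C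

lemma ext {g Δ : ℕ} (hU : UniqSStmt) (hB : Big G g) (hΔ : 2 ≤ Δ) {C S : Set V}
    (hC : ∀ v ∈ C, (G.neighborSet v).ncard = Δ) (hCS : ∀ v ∈ C, ∀ u, G.Adj v u → u ∈ C ∨ u ∈ S)
    {v u : V} (hv : v ∈ C) (hvu : G.Adj v u) :
    ∀ k, 1 ≤ k → k + 1 ≤ g → Fin' G C S v u k ∨
      ∃ z : ℕ → V, IsP G z k ∧ z 0 = v ∧ z 1 = u ∧ ∀ t, t ≤ k → z t ∈ C := by
  intro k hk
  induction k, hk using Nat.le_induction with
  | base =>
    intro _
    rcases hCS v hv u hvu with h | h
    · refine Or.inr ⟨fun t => if t = 0 then v else u, isP_one hvu, rfl, rfl, fun t ht => ?_⟩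
      rcases Nat.eq_zero_or_pos t with rfl | h1
      · exact hv
      · simp only [if_neg (show ¬ t = 0 by omega)]
        exact h
    · exact Or.inl ⟨fun t => if t = 0 then v else u, 1, le_rfl, le_rfl, isP_one hvu, rfl, rfl,
        h, hv⟩
  | succ k hk ih =>
    intro hg
    rcases ih (by omega) with ⟨z, n, h1, h2, h3⟩ | ⟨z, hz, h0, h1, hzC⟩
    · exact Or.inl ⟨z, n, h1, by omega, h3⟩
    · -- choose the next vertex
      obtain ⟨y, hy, hyne⟩ : ∃ y, G.Adj (z k) y ∧ y ≠ z (k - 1) := by
        have h2 : 1 < (G.neighborSet (z k)).ncard := by rw [hC _ (hzC k le_rfl)]; omega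
        obtain ⟨y, hy, hne⟩ := Set.exists_ne_of_one_lt_ncard h2 (z (k - 1))
        exact ⟨y, hy, hne⟩
      have hnew : ∀ t, t ≤ k → z t ≠ y := by
        intro t ht hty
        rcases Nat.lt_or_ge t k with h2 | h2
        · have p1 : IsP G (fun s => z (t + s)) (k - t) := isP_shift hz ht
          have p2 : IsP G (fun s => if s = 0 then y else z k) 1 := isP_one hy.symm
          have h3 := (hU V G g hB _ _ _ _ p1 p2 (by simpa using hty)
            (by simp [show t + (k - t) = k by omega]) (by omega)).1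
          have : t = k - 1 := by omega
          rw [this] at hty
          exact hyne hty.symm
        · have : t = k := by omega
          rw [this] at hty
          exact hy.ne hty
      have hz' : IsP G (fun t => if t ≤ k then z t else y) (k + 1) := by
        refine ⟨fun t ht => ?_, fun a b ha hb hab => ?_⟩
        · rcases Nat.lt_or_ge t k with h2 | h2
          · simp only [if_pos (show t ≤ k by omega), if_pos (show t + 1 ≤ k by omega)]
            exact hz.1 t h2
          · obtain rfl : t = k := by omega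
            simp only [le_refl, if_true, if_neg (show ¬ t + 1 ≤ t by omega)]
            exact hy
        · by_cases h2 : a ≤ k <;> by_cases h3 : b ≤ k
          · simp only [if_pos h2, if_pos h3] at hab
            exact hz.2 a b h2 h3 hab
          · simp only [if_pos h2, if_neg h3] at hab
            exact absurd hab (hnew a h2)
          · simp only [if_neg h2, if_pos h3] at hab
            exact absurd hab.symm (hnew b h3)
          · omega
      rcases hCS _ (hzC k le_rfl) y hy with h | h
      · refine Or.inr ⟨_, hz', ?_, ?_, fun t ht => ?_⟩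
        · simpa using h0
        · simp only [if_pos (show 1 ≤ k by omega)]
          exact h1
        · by_cases h2 : t ≤ k
          · simp only [if_pos h2]
            exact hzC t h2
          · simp only [if_neg h2]
            exact h
      · refine Or.inl ⟨_, k + 1, by omega, le_rfl, hz', ?_, ?_, ?_, ?_⟩
        · simpa using h0
        · simp only [if_pos (show 1 ≤ k by omega)]
          exact h1
        · simp only [if_neg (show ¬ k + 1 ≤ k by omega)]
          exact h
        · simp only [show k + 1 - 1 = k by omega, le_refl, if_true]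
          exact hzC k le_rfl

lemma fin {g Δ R : ℕ} (hU : UniqSStmt) (hB : Big G g) (hg : 2 * R + 3 ≤ g) (hΔ : 2 ≤ Δ)
    {C S : Set V}
    (hC : ∀ v ∈ C, (G.neighborSet v).ncard = Δ) (hCS : ∀ v ∈ C, ∀ u, G.Adj v u → u ∈ C ∨ u ∈ S)
    (hn : ∀ v, ∃ w, w ∉ C ∧ near G R v w)
    {v u : V} (hv : v ∈ C) (hvu : G.Adj v u) : Fin' G C S v u (2 * R + 1) := by
  rcases ext hU hB hΔ hC hCS hv hvu (R + 1) (by omega) (by omega) with
    ⟨z, n, h1, h2, h3⟩ | ⟨z, hz, h0, h1, hzC⟩
  · exact ⟨z, n, h1, by omega, h3⟩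
  obtain ⟨w, hwC, p, hp⟩ := hn (z (R + 1))
  classical
  set q : ℕ → V := fun t => p.bypass.getVert t with hq
  set k := p.bypass.length with hk
  have hkR : k ≤ R := (Walk.length_bypass_le_length p).trans hp
  have hqP : IsP G q k := by
    refine ⟨fun t ht => Walk.adj_getVert_succ _ ht, fun s t hs ht hst => ?_⟩
    exact (Walk.bypass_isPath p).getVert_injOn hs ht hst
  have hq0 : q 0 = z (R + 1) := by rw [hq]; simp
  have hqk : q k = w := by rw [hq, hk]; simp
  -- the last vertex of `q` on `z`
  obtain ⟨j, hj, ⟨i, hi, hij⟩, hmax⟩ : ∃ j, j ≤ k ∧ (∃ i, i ≤ R + 1 ∧ q j = z i) ∧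
      ∀ j', j < j' → j' ≤ k → ∀ i, i ≤ R + 1 → q j' ≠ z i := by
    have : ∀ k', k' ≤ k → ∃ j, j ≤ k' ∧ (∃ i, i ≤ R + 1 ∧ q j = z i) ∧
      ∀ j', j < j' → j' ≤ k' → ∀ i, i ≤ R + 1 → q j' ≠ z i := by
      intro k'
      induction k' with
      | zero => intro _; exact ⟨0, le_rfl, ⟨R + 1, le_rfl, hq0⟩, fun j' h1 h2 => by omega⟩
      | succ k' ih =>
        intro hk'
        by_cases h : ∃ i, i ≤ R + 1 ∧ q (k' + 1) = z i
        · exact ⟨k' + 1, le_rfl, h, fun j' h1 h2 => by omega⟩
        · obtain ⟨j, h1, h2, h3⟩ := ih (by omega)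
          refine ⟨j, by omega, h2, fun j' h4 h5 => ?_⟩
          rcases Nat.lt_or_ge k' j' with h6 | h6
          · obtain rfl : j' = k' + 1 := by omega
            push Not at h
            exact h
          · exact h3 j' h4 h6
    exact this k le_rfl
  have hi1 : 1 ≤ i := by
    by_contra hi0
    obtain rfl : i = 0 := by omega
    have p1 : IsP G (fun t => z (R + 1 - t)) (R + 1) := isP_rev hz
    have p2 : IsP G q j := isP_prefix hqP hj
    have := (hU V G g hB _ _ _ _ p1 p2 (by simpa using hq0.symm) (by simpa using hij.symm)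
      (by omega)).1
    omega
  -- the new path
  set P : ℕ → V := fun t => if t ≤ i then z t else q (j + (t - i)) with hPdef
  have hP : IsP G P (i + (k - j)) := by
    refine ⟨fun t ht => ?_, fun a b ha hb hab => ?_⟩
    · rcases Nat.lt_trichotomy t i with h2 | h2 | h2
      · simp only [hPdef, if_pos (show t ≤ i by omega), if_pos (show t + 1 ≤ i by omega)]
        exact hz.1 t (by omega)
      · subst h2
        simp only [hPdef, le_refl, if_true, if_neg (show ¬ t + 1 ≤ t by omega)]
        rw [← hij, show t + 1 - t = 1 by omega]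
        exact hqP.1 j (by omega)
      · simp only [hPdef, if_neg (show ¬ t ≤ i by omega), if_neg (show ¬ t + 1 ≤ i by omega)]
        rw [show j + (t + 1 - i) = j + (t - i) + 1 by omega]
        exact hqP.1 _ (by omega)
    · by_cases h2 : a ≤ i <;> by_cases h3 : b ≤ i
      · simp only [hPdef, if_pos h2, if_pos h3] at hab
        exact hz.2 a b (by omega) (by omega) hab
      · simp only [hPdef, if_pos h2, if_neg h3] at hab
        exact absurd hab.symm (hmax _ (by omega) (by omega) a (by omega))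
      · simp only [hPdef, if_neg h2, if_pos h3] at hab
        exact absurd hab (hmax _ (by omega) (by omega) b (by omega))
      · simp only [hPdef, if_neg h2, if_neg h3] at hab
        have := hqP.2 _ _ (by omega) (by omega) hab
        omega
  have hPC : ∀ t, t ≤ i → P t ∈ C := by
    intro t ht
    simp only [hPdef, if_pos ht]
    exact hzC t (by omega)
  have hPend : P (i + (k - j)) ∉ C := by
    rcases Nat.eq_zero_or_pos (k - j) with h2 | h2
    · exfalso
      have hjk : j = k := by omega
      apply hwC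
      rw [← hqk, ← hjk, hij]
      exact hzC i hi
    · simp only [hPdef, if_neg (show ¬ i + (k - j) ≤ i by omega)]
      rw [show j + (i + (k - j) - i) = k by omega, hqk]
      exact hwC
  -- the first vertex outside of `C`
  obtain ⟨n, hn1, hn2⟩ : ∃ n, P n ∉ C ∧ ∀ n', n' < n → ¬ P n' ∉ C := by
    have hex : ∃ n, P n ∉ C := ⟨_, hPend⟩
    exact ⟨Nat.find hex, Nat.find_spec hex, fun n' h => Nat.find_min hex h⟩
  have hni : i < n := by
    by_contra h
    exact hn1 (hPC n (by omega))
  have hnk : n ≤ i + (k - j) := by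
    by_contra h
    exact hn2 _ (by omega) hPend
  have hnC : P (n - 1) ∈ C := by
    have := hn2 (n - 1) (by omega)
    push Not at this
    exact this
  have hadj : G.Adj (P (n - 1)) (P n) := by
    have := hP.1 (n - 1) (by omega)
    rwa [show n - 1 + 1 = n by omega] at this
  refine ⟨P, n, by omega, by omega, isP_prefix hP hnk, ?_, ?_, ?_, hnC⟩
  · simp only [hPdef, Nat.zero_le, if_true]
    exact h0
  · simp only [hPdef, if_pos hi1]
    exact h1
  · exact (hCS _ hnC _ hadj).resolve_left hn1

end Bnd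

open Bnd in
theorem bnd (hU : UniqSStmt) : BndStmt := by
  intro V _ G Δ R hΔ hB C S hCne hC hCS hd hn
  obtain ⟨v, hv⟩ := hCne
  have hf : ∀ u, ∃ e : V × V, G.Adj v u → e.1 ∈ C ∧ e.2 ∈ S ∧ G.Adj e.1 e.2 ∧
      ∃ (z : ℕ → V) (n : ℕ), 1 ≤ n ∧ n ≤ 2 * R + 1 ∧ IsP G z n ∧ z 0 = v ∧ z 1 = u ∧ z n = e.2 := by
    intro u
    by_cases h : G.Adj v u
    · obtain ⟨z, n, h1, h2, h3, h4, h5, h6, h7⟩ := fin hU hB (by omega) hΔ hC hCS hn hv h
      refine ⟨(z (n - 1), z n), fun _ => ⟨h7, h6, ?_, z, n, h1, h2, h3, h4, h5, rfl⟩⟩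
      have := h3.1 (n - 1) (by omega)
      rwa [show n - 1 + 1 = n by omega] at this
    · exact ⟨(v, v), fun h' => absurd h' h⟩
  choose f hf using hf
  rw [← hC v hv]
  refine Set.ncard_le_ncard_of_injOn f ?_ ?_ (Set.toFinite _)
  · intro u hu
    obtain ⟨h1, h2, h3, -⟩ := hf u hu
    exact ⟨h1, h2, h3⟩
  · intro a ha b hb hab
    obtain ⟨-, -, -, z, n, h1, h2, h3, h4, h5, h6⟩ := hf a ha
    obtain ⟨-, -, -, z', n', h1', h2', h3', h4', h5', h6'⟩ := hf b hb
    obtain ⟨e1, e2⟩ := hU V G _ hB z z' n n' h3 h3' (by rw [h4, h4']) (by rw [h6, h6', hab])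
      (by omega)
    rw [← h5, ← h5']
    exact e2 1 h1

end Pool.Agent.LAG
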