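import Pool.Agent.Helper76_LAG.Stmt

/-!
helper25, LAG (MP_0a041d_co): CARD and RCH.
-/

set_option autoImplicit false

namespace Pool.Agent.LAG

open SimpleGraph

namespace Card

lemma nb_card {V : Type} [Finite V] (E : Env V) (y : V) : {x | x = y ∨ E.H.Adj x y}.ncard ≤ 5 := by
  classical
  have h1 : {x | x = y ∨ E.H.Adj x y} = insert y {x | E.H.Adj x y} := by
    ext x; simp
  rw [h1]
  refine (Set.ncard_insert_le _ _).trans ?_
  have h2 : {x | E.H.Adj x y}.ncard ≤ (Set.univ : Set (Fin 4)).ncard := by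
    refine Set.ncard_le_ncard_of_injOn (E.slot y) (fun _ _ => Set.mem_univ _) ?_ Set.finite_univ
    intro a ha b hb hab
    exact E.slot_inj y a b (ha : E.H.Adj a y).symm (hb : E.H.Adj b y).symm hab
  rw [Set.ncard_univ, Nat.card_eq_fintype_card, Fintype.card_fin] at h2
  omega

/-- the centres -/
noncomputable def Y {V : Type} {L : ℕ} (E : Env V) (ω : V → St L) (T : ℕ) {n : ℕ}
    (z : Fin (n + 1) → V) (r : ℕ) : Fin (n + 1) ⊕ (Bool × (Fin (r + 1) × Fin (T + 1))) → V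
  | Sum.inl a => z a
  | Sum.inr (b, t, i) => if b then ((nx E ω)^[i.1] (edg z t.1)).2 else
      ((nx E ω)^[i.1] (edg z t.1).swap).2

lemma supp_sub {V : Type} {L : ℕ} (E : Env V) (ω : V → St L) (T : ℕ) {n : ℕ}
    (z : Fin (n + 1) → V) (r : ℕ) :
    Supp E ω T z r ⊆ ⋃ a, {x | x = Y E ω T z r a ∨ E.H.Adj x (Y E ω T z r a)} := by
  rintro x ⟨y, hx, h⟩
  rw [Set.mem_iUnion]
  rcases h with ⟨t, rfl⟩ | ⟨t, ht, i, hi, rfl | rfl⟩
  · exact ⟨Sum.inl (Fin.ofNat (n + 1) t), hx⟩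
  · exact ⟨Sum.inr (true, ⟨t, by omega⟩, ⟨i, by omega⟩), hx⟩
  · exact ⟨Sum.inr (false, ⟨t, by omega⟩, ⟨i, by omega⟩), hx⟩

end Card

open Card in
theorem card : CardStmt := by
  intro V _ L T E ω n z r
  refine (Set.ncard_le_ncard (supp_sub E ω T z r) (Set.toFinite _)).trans ?_
  refine (Set.ncard_iUnion_le_of_fintype _).trans ?_
  refine (Finset.sum_le_sum fun a _ => nb_card E _).trans ?_
  rw [Finset.sum_const, smul_eq_mul, Finset.card_univ, Fintype.card_sum, Fintype.card_prod,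
    Fintype.card_prod, Fintype.card_fin, Fintype.card_fin, Fintype.card_fin, Fintype.card_bool]
  apply le_of_eq
  ring

namespace Rch

variable {V : Type} {L : ℕ} {E : Env V} {ω : V → St L}

lemma nx_fix {e : V × V} (h : stp E ω e) : nx E ω e = e := by
  unfold nx
  rw [dif_neg h]

lemma nx_go {e : V × V} (h : ¬ stp E ω e) : (nx E ω e).1 = e.2 ∧ Nxt E ω e (nx E ω e).2 := by
  unfold stp at h
  push Not at h
  unfold nx
  rw [dif_pos h]
  exact ⟨rfl, h.choose_spec⟩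

lemma it_fix {e : V × V} {k : ℕ} (h : stp E ω ((nx E ω)^[k] e)) :
    ∀ i, k ≤ i → (nx E ω)^[i] e = (nx E ω)^[k] e := by
  intro i hi
  obtain ⟨j, rfl⟩ := Nat.exists_eq_add_of_le hi
  induction j with
  | zero => rfl
  | succ j ih =>
    rw [← Nat.add_assoc, Function.iterate_succ_apply', ih (by omega)]
    exact nx_fix h

lemma cyc_le {k : ℕ} (u : ℕ → V) {t : ℕ} (h : t ≤ k) :
    cyc (fun s : Fin (k + 1) => u s.1) t = u t := by
  unfold cyc
  simp only [Fin.ofNat]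
  rw [Nat.mod_eq_of_lt (by omega)]

lemma cyc_mod {n : ℕ} (z : Fin (n + 1) → V) (t : ℕ) : cyc z t = cyc z (t % (n + 1)) := by
  unfold cyc
  congr 1
  ext
  simp [Fin.ofNat]

/-- the walk from the last vertex on the cycle -/
lemma reach {T n : ℕ} {z : Fin (n + 1) → V} {e : V × V} (he : Tidy E ω T e)
    (h0 : ∃ p, e.2 = cyc z p) (i : ℕ) :
    ∃ k, k ≤ T ∧ ∃ w : Fin (k + 1) → V, IsW E z w ∧ cyc w k = ((nx E ω)^[i] e).2 ∧
      Ev3 E ω (cyc w) k := by
  obtain ⟨ha, k0, hk0, hs, hd⟩ := he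
  wlog hi : i ≤ k0 generalizing i
  · rw [it_fix hs i (by omega)]
    exact this k0 le_rfl
  set u : ℕ → V := fun j => ((nx E ω)^[j] e).2 with hu
  have hgo : ∀ j, j < k0 → ((nx E ω)^[j + 1] e).1 = u j ∧ Alv E ω (u j) (u (j + 1)) ∧
      Ptn E ω (u j) ((nx E ω)^[j] e).1 (u (j + 1)) := by
    intro j hj
    have hns : ¬ stp E ω ((nx E ω)^[j] e) := by
      intro h
      have h1 := it_fix h (j + 1) (by omega)
      have h2 := hd (j + 1) j (by omega) (by omega) (by rw [h1])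
      omega
    obtain ⟨h1, h2⟩ := nx_go hns
    rw [← Function.iterate_succ_apply' (nx E ω) j e] at h1 h2
    exact ⟨h1, h2.1, h2.2⟩
  obtain ⟨j0, hj0, ⟨hj1, hj2⟩⟩ : ∃ j0, j0 ≤ i ∧ (∃ p, u j0 = cyc z p) ∧
      ∀ j, j0 < j → j ≤ i → ∀ p, u j ≠ cyc z p := by
    clear hi
    induction i with
    | zero => exact ⟨0, le_rfl, h0, fun j h1 h2 => by omega⟩
    | succ i ih =>
      by_cases h : ∃ p, u (i + 1) = cyc z p
      · exact ⟨i + 1, le_rfl, h, fun j h1 h2 => by omega⟩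
      · obtain ⟨j0, h1, h2, h3⟩ := ih
        refine ⟨j0, by omega, h2, fun j h4 h5 => ?_⟩
        rcases Nat.lt_or_ge i j with h6 | h6
        · have : j = i + 1 := by omega
          subst this
          push Not at h
          exact h
        · exact h3 j h4 h6
  refine ⟨i - j0, by omega, fun s => u (j0 + s.1), ⟨⟨?_, ?_⟩, ?_, ?_⟩, ?_, ?_⟩
  · intro t ht
    rw [cyc_le (fun s => u (j0 + s)) (by omega), cyc_le (fun s => u (j0 + s)) (by omega)]
    exact (hgo (j0 + t) (by omega)).2.1.1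
  · intro s t hs ht h
    rw [cyc_le (fun s => u (j0 + s)) (by omega), cyc_le (fun s => u (j0 + s)) (by omega)] at h
    have := hd (j0 + s) (j0 + t) (by omega) (by omega) h
    omega
  · obtain ⟨p, hp⟩ := hj1
    refine ⟨p % (n + 1), Nat.le_of_lt_succ (Nat.mod_lt p (Nat.succ_pos n)), ?_⟩
    rw [← cyc_mod, cyc_le (fun s => u (j0 + s)) (by omega)]
    exact hp
  · intro t ht1 ht2 p
    rw [cyc_le (fun s => u (j0 + s)) (by omega)]
    exact hj2 (j0 + t) (by omega) (by omega) p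
  · rw [cyc_le (fun s => u (j0 + s)) (by omega)]
    have : j0 + (i - j0) = i := by omega
    simp only [this]
    rfl
  · intro t ht1 ht2
    rw [cyc_le (fun s => u (j0 + s)) (by omega), cyc_le (fun s => u (j0 + s)) (by omega),
      cyc_le (fun s => u (j0 + s)) (by omega)]
    obtain ⟨h1, -, h3⟩ := hgo (j0 + t) (by omega)
    obtain ⟨h4, -, -⟩ := hgo (j0 + (t - 1)) (by omega)
    rw [show j0 + (t - 1) + 1 = j0 + t by omega] at h4
    rw [h4] at h3
    exact h3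

end Rch

open Rch in
theorem rch : RchStmt := by
  intro V L T ℓ E ω n z r y κ hB x hx
  obtain ⟨b1, b2, b3, b4, b5, b6, b7, b8, c, b9⟩ := hB
  obtain ⟨y', hy, h⟩ := hx
  rcases h with ⟨t, rfl⟩ | ⟨t, ht, i, hi, rfl | rfl⟩
  · refine ⟨_, hy, 0, by omega, fun _ => cyc z t, ⟨⟨fun t ht => by omega, fun s t hs ht _ => by
      omega⟩, ⟨t % (n + 1), Nat.le_of_lt_succ (Nat.mod_lt t (Nat.succ_pos n)), ?_⟩,
      fun i h1 h2 => by omega⟩, rfl, fun t h1 h2 => by omega⟩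
    rw [← cyc_mod]
    rfl
  · obtain ⟨k, hk, w, hw, h1, h2⟩ := reach (z := z) (b7 t ht).1 ⟨t, rfl⟩ i
    exact ⟨_, hy, k, hk, w, hw, h1, h2⟩
  · obtain ⟨k, hk, w, hw, h1, h2⟩ := reach (z := z) (b7 t ht).2 ⟨t + n, rfl⟩ i
    exact ⟨_, hy, k, hk, w, hw, h1, h2⟩

end Pool.Agent.LAG
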