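import Pool.Agent.Helper76_LAG.Stmt

/-!
helper25, LAG (MP_0a041d_co): DEG and TAM.
-/

set_option autoImplicit false

namespace Pool.Agent.LAG

open SimpleGraph

namespace Deg

lemma kx_three : ∀ (t : Fin 3) (a b c : Fin 4), a ≠ b → a ≠ c → b ≠ c → kx t a ≠ b →
    kx t a ≠ c → kx t b ≠ c → False := by decide

end Deg

theorem deg (hS : SegaStmt) : DegStmt := by
  intro V _ L T E ω hT c v
  obtain ⟨-, -, -, -, h5, -⟩ := hS V L T E ω hT
  by_contra hcon
  have hcon' : 2 < ((CG E ω T c).neighborSet v).ncard := by omega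
  rw [Set.two_lt_ncard_iff] at hcon'
  obtain ⟨a, b, d, ha, hb, hd, hab, had, hbd⟩ := hcon'
  have key : ∀ u w, u ∈ (CG E ω T c).neighborSet v → w ∈ (CG E ω T c).neighborSet v →
      u ≠ w → E.slot v u ≠ E.slot v w ∧ kx (ω v).1.1 (E.slot v u) ≠ E.slot v w := by
    intro u w hu hw huw
    have hu' : (CG E ω T c).Adj v u := hu
    have hw' : (CG E ω T c).Adj v w := hw
    refine ⟨fun h => huw (E.slot_inj v u w hu'.1.1 hw'.1.1 h), fun h => ?_⟩
    have h1 := hu'.symm
    exact h5 u v w h1.1 hw'.1 h (by rw [h1.2.1, hw'.2.1])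
  obtain ⟨k1, k2⟩ := key a b ha hb hab
  obtain ⟨k3, k4⟩ := key a d ha hd had
  obtain ⟨k5, k6⟩ := key b d hb hd hbd
  exact Deg.kx_three _ _ _ _ k1 k3 k5 k2 k4 k6

theorem tam : TamStmt := by
  intro V L T E ω hT h2 h3
  have hA : ∀ z n, IsT E ω z n → n ≤ T → ∀ s t, s < t → t ≤ n → z s ≠ z t := by
    intro z n hz hn
    by_contra hcon
    push Not at hcon
    have hex : ∃ t, ∃ s, s < t ∧ t ≤ n ∧ z s = z t := by
      obtain ⟨s, t, h1, h2, h3⟩ := hcon
      exact ⟨t, s, h1, h2, h3⟩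
    obtain ⟨t, ⟨s, hst, htn, hzz⟩, hmin⟩ : ∃ t, (∃ s, s < t ∧ t ≤ n ∧ z s = z t) ∧
        ∀ t', t' < t → ¬ ∃ s, s < t' ∧ t' ≤ n ∧ z s = z t' := by
      classical
      exact ⟨Nat.find hex, Nat.find_spec hex, fun t' h => Nat.find_min hex h⟩
    obtain ⟨m, rfl⟩ : ∃ m, t = s + m := ⟨t - s, by omega⟩
    refine h3 (fun i => z (s + i)) m (by omega) ⟨?_, ?_, ?_, ?_⟩ ?_
    · by_contra hm
      have hm' : m = 1 ∨ m = 2 := by omega
      rcases hm' with rfl | rfl
      · exact (hz.1 s (by omega)).1.ne hzz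
      · have h := hz.2 (s + 1) (by omega) (by omega)
        unfold Ptn at h
        rw [show s + 1 - 1 = s by omega, show s + 1 + 1 = s + 2 by omega, ← hzz] at h
        exact kx_ne _ _ h
    · intro i hi
      exact (hz.1 (s + i) (by omega)).1
    · exact hzz.symm
    · intro i j hi hj hij
      by_contra hne
      rcases Nat.lt_or_gt_of_ne hne with h | h
      · exact hmin (s + j) (by omega) ⟨s + i, by omega, by omega, hij⟩
      · exact hmin (s + i) (by omega) ⟨s + j, by omega, by omega, hij.symm⟩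
    · intro i hi him
      have h := hz.2 (s + i) (by omega) (by omega)
      rw [show s + i - 1 = s + (i - 1) by omega] at h
      exact h
  intro z n hz
  have hn : n < T := by
    by_contra hcon
    have hz' : IsT E ω z T := ⟨fun t ht => hz.1 t (by omega), fun t h0 ht => hz.2 t h0 (by omega)⟩
    refine h2 z ⟨fun t ht => (hz.1 t (by omega)).1, fun s t hs ht hst => ?_⟩ fun t h0 ht => ?_
    · by_contra hne
      rcases Nat.lt_or_gt_of_ne hne with h | h
      · exact hA z T hz' le_rfl s t h ht hst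
      · exact hA z T hz' le_rfl t s h hs hst.symm
    · exact ⟨hz.2 t h0 (by omega), (hz.1 t (by omega)).2.1⟩
  refine ⟨hn, fun s t hs ht hst => ?_⟩
  by_contra hne
  rcases Nat.lt_or_gt_of_ne hne with h | h
  · exact hA z n hz hn.le s t h ht hst
  · exact hA z n hz hn.le t s h hs hst.symm

end Pool.Agent.LAG
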