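import Pool.Agent.Helper76_LAG.Stmt

/-!
helper25, LAG (MP_0a041d_co): STOP.
-/

set_option autoImplicit false

namespace Pool.Agent.LAG

open SimpleGraph

namespace Stop

variable {V : Type} {L : ℕ} {E : Env V} {ω ω' : V → St L}

/-- agreement on a closed neighbourhood -/
def Agr (E : Env V) (ω ω' : V → St L) (v : V) : Prop := ∀ x, (x = v ∨ E.H.Adj x v) → ω x = ω' x

lemma kil_congr {v u : V} (h : ω v = ω' v) : Kil E ω v u ↔ Kil E ω' v u := by
  unfold Kil; rw [h]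

lemma ptn_congr {v u w : V} (h : ω v = ω' v) : Ptn E ω v u w ↔ Ptn E ω' v u w := by
  unfold Ptn; rw [h]

lemma alv_congr {u v : V} (hu : E.H.Adj u v → ω u = ω' u) (hv : E.H.Adj u v → ω v = ω' v) :
    Alv E ω u v ↔ Alv E ω' u v := by
  unfold Alv
  constructor
  · rintro ⟨h1, h2, h3⟩
    exact ⟨h1, (kil_congr (hu h1)).not.1 h2, (kil_congr (hv h1)).not.1 h3⟩
  · rintro ⟨h1, h2, h3⟩
    exact ⟨h1, (kil_congr (hu h1)).not.2 h2, (kil_congr (hv h1)).not.2 h3⟩

lemma nxt_congr {e : V × V} (h : Agr E ω ω' e.2) : Nxt E ω e = Nxt E ω' e := by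
  funext w
  unfold Nxt
  apply propext
  rw [alv_congr (u := e.2) (v := w) (fun _ => h _ (Or.inl rfl)) (fun h' => h _ (Or.inr h'.symm)),
    ptn_congr (h _ (Or.inl rfl))]

open Classical in
lemma dite_aux (e : V × V) (P Q : V → Prop) (h : P = Q) :
    ((if h : ∃ w, P w then (e.2, h.choose) else e) =
      (if h : ∃ w, Q w then (e.2, h.choose) else e)) := by
  subst h
  rfl

lemma nx_congr {e : V × V} (h : Agr E ω ω' e.2) : nx E ω e = nx E ω' e :=
  dite_aux e _ _ (nxt_congr h)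

lemma stp_congr {e : V × V} (h : Agr E ω ω' e.2) : stp E ω e ↔ stp E ω' e := by
  unfold stp
  rw [nxt_congr h]

lemma it_congr {e : V × V} {T : ℕ} (h : ∀ i, i ≤ T → Agr E ω ω' ((nx E ω)^[i] e).2) :
    ∀ i, i ≤ T → (nx E ω)^[i] e = (nx E ω')^[i] e := by
  intro i
  induction i with
  | zero => intro _; rfl
  | succ i ih =>
    intro hi
    rw [Function.iterate_succ_apply', Function.iterate_succ_apply', ← ih (by omega)]
    exact nx_congr (h i (by omega))

lemma colD_congr {e : V × V} {T : ℕ} (h : ∀ i, i ≤ T → Agr E ω ω' ((nx E ω)^[i] e).2) :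
    ∀ n i, n + i ≤ T → colD E ω n ((nx E ω)^[i] e) = colD E ω' n ((nx E ω)^[i] e) := by
  intro n
  induction n with
  | zero =>
    intro i hi
    unfold colD
    rw [h i (by omega) _ (Or.inl rfl)]
  | succ n ih =>
    intro i hi
    unfold colD
    have h1 := stp_congr (h i (by omega))
    have h2 := nx_congr (h i (by omega))
    have h3 := ih (i + 1) (by omega)
    rw [Function.iterate_succ_apply'] at h3
    rw [h i (by omega) _ (Or.inl rfl), ← h2, h3]
    by_cases hs : stp E ω ((nx E ω)^[i] e)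
    · rw [if_pos hs, if_pos (h1.1 hs)]
    · rw [if_neg hs, if_neg fun h => hs (h1.2 h)]

lemma supp_agr {T n : ℕ} {z : Fin (n + 1) → V} {r : ℕ}
    (h : ∀ v ∈ Supp E ω T z r, ω v = ω' v) :
    (∀ t, Agr E ω ω' (cyc z t)) ∧
    (∀ t, t ≤ r → ∀ i, i ≤ T → Agr E ω ω' ((nx E ω)^[i] (edg z t)).2) ∧
    (∀ t, t ≤ r → ∀ i, i ≤ T → Agr E ω ω' ((nx E ω)^[i] (edg z t).swap).2) := by
  refine ⟨fun t x hx => h x ⟨_, hx, Or.inl ⟨t, rfl⟩⟩, fun t ht i hi x hx => h x ⟨_, hx, Or.inr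
    ⟨t, ht, i, hi, Or.inl rfl⟩⟩, fun t ht i hi x hx => h x ⟨_, hx, Or.inr
    ⟨t, ht, i, hi, Or.inr rfl⟩⟩⟩

lemma tidy_congr {e : V × V} {T : ℕ} (h : ∀ i, i ≤ T → Agr E ω ω' ((nx E ω)^[i] e).2)
    (h1 : ω e.1 = ω' e.1) (h2 : ω e.2 = ω' e.2) (ht : Tidy E ω T e) : Tidy E ω' T e := by
  obtain ⟨ha, k, hk, hs, hd⟩ := ht
  have hit := it_congr h
  refine ⟨(alv_congr (fun _ => h1) (fun _ => h2)).1 ha, k, hk, ?_, ?_⟩
  · rw [← hit k hk.le]
    exact (stp_congr (h k hk.le)).1 hs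
  · intro i j hi hj hij
    rw [← hit i (by omega), ← hit j (by omega)] at hij
    exact hd i j hi hj hij

lemma skey_congr {e : V × V} {T : ℕ} (h : ∀ i, i ≤ T → Agr E ω ω' ((nx E ω)^[i] e).2)
    (h' : ∀ i, i ≤ T → Agr E ω ω' ((nx E ω)^[i] e.swap).2) :
    skey E ω T e = skey E ω' T e := by
  unfold skey key
  rw [it_congr h T le_rfl, it_congr h' T le_rfl]

lemma col_congr {e : V × V} {T : ℕ} (h : ∀ i, i ≤ T → Agr E ω ω' ((nx E ω)^[i] e).2)
    (h' : ∀ i, i ≤ T → Agr E ω ω' ((nx E ω)^[i] e.swap).2) :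
    col E ω T e = col E ω' T e := by
  have h1 := colD_congr h T 0 (by omega)
  have h2 := colD_congr h' T 0 (by omega)
  rw [Function.iterate_zero, id_eq] at h1 h2
  unfold col key
  rw [it_congr h T le_rfl, it_congr h' T le_rfl, h1, h2]

end Stop

open Stop in
theorem stop : StopStmt := by
  intro V L T ℓ E ω ω' n z r y κ hB hS
  obtain ⟨hc, he, hes⟩ := supp_agr hS
  have hw : ∀ t, ω (cyc z t) = ω' (cyc z t) := fun t => hc t _ (Or.inl rfl)
  obtain ⟨b1, b2, b3, b4, b5, b6, b7, b8, c, b9⟩ := hB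
  refine ⟨⟨b1, b2, b3, b4, b5, ?_, ?_, ?_, c, ?_⟩, ?_⟩
  · intro t ht
    rw [← b6 t ht]
    exact (ptn_congr (hw t)).symm
  · intro t ht
    exact ⟨tidy_congr (he t ht) (hw _) (hw _) (b7 t ht).1,
      tidy_congr (hes t ht) (hw _) (hw _) (b7 t ht).2⟩
  · intro s t hs ht h
    rw [← skey_congr (he s hs) (hes s hs), ← skey_congr (he t ht) (hes t ht)] at h
    exact b8 s t hs ht h
  · intro t ht
    rw [← col_congr (he t ht) (hes t ht)]
    exact b9 t ht
  · ext x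
    unfold Supp
    simp only [Set.mem_ofPred_eq]
    constructor
    · rintro ⟨y, hy, h⟩
      refine ⟨y, hy, h.imp_right ?_⟩
      rintro ⟨t, ht, i, hi, h⟩
      refine ⟨t, ht, i, hi, ?_⟩
      rw [it_congr (he t ht) i hi, it_congr (hes t ht) i hi]
      exact h
    · rintro ⟨y, hy, h⟩
      refine ⟨y, hy, h.imp_right ?_⟩
      rintro ⟨t, ht, i, hi, h⟩
      refine ⟨t, ht, i, hi, ?_⟩
      rw [← it_congr (he t ht) i hi, ← it_congr (hes t ht) i hi]
      exact h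

end Pool.Agent.LAG
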